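import Mathlib

namespace Pool.Agent.Lib.MP_cd184e_ag

open Finset

variable {k M ι : Type} [Field k] [AddCommGroup M]

/-- the rays have dual elements -/
def Du (W : Finset (M →+ ℤ)) : Prop :=
  ∀ v ∈ W, ∃ e : M, v e = 1 ∧ ∀ v' ∈ W, v' ≠ v → v' e = 0

lemma Du.mono {W W' : Finset (M →+ ℤ)} (h : Du W) (hs : W' ⊆ W) : Du W' := by
  intro v hv
  obtain ⟨e, h1, h2⟩ := h v (hs hv)
  exact ⟨e, h1, fun v' hv' hne => h2 v' (hs hv') hne⟩

/-- prescribe values -/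
lemma Du.exists_val {W : Finset (M →+ ℤ)} (h : Du W) (c : (M →+ ℤ) → ℤ) :
    ∃ t : M, ∀ v ∈ W, v t = c v := by
  classical
  choose! e he1 he2 using h
  refine ⟨∑ v ∈ W, c v • e v, fun v hv => ?_⟩
  rw [map_sum, Finset.sum_eq_single v]
  · simp [he1 v hv]
  · intro v' hv' hne
    simp [he2 v' hv' v hv (Ne.symm hne)]
  · intro h; exact absurd hv h

/-- dual monoid -/
def dual (W : Finset (M →+ ℤ)) : AddSubmonoid M where
  carrier := {s | ∀ v ∈ W, 0 ≤ v s}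
  add_mem' := by
    intro a b ha hb v hv
    rw [map_add]; exact add_nonneg (ha v hv) (hb v hv)
  zero_mem' := by intro v _; simp

lemma mem_dual {W : Finset (M →+ ℤ)} {s : M} : s ∈ dual W ↔ ∀ v ∈ W, 0 ≤ v s := Iff.rfl

def Tm (k : Type) [Field k] (m : M) (W : Finset (M →+ ℤ)) : Set (M →+ k) :=
  {w | ∀ s ∈ dual W, s + m ∉ dual W → w s = 0}

lemma Tm_ker {m : M} {W : Finset (M →+ ℤ)} (hW : Du W) {w : M →+ k} (hw : w ∈ Tm k m W)
    {ρ : M →+ ℤ} (hρ : ρ ∈ W) (hm : ρ m < 0) (s : M) (hs : ρ s = 0) : w s = 0 := by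
  obtain ⟨t, ht⟩ := hW.exists_val (fun v => |v s|)
  have h1 : w t = 0 := by
    apply hw
    · intro v hv; rw [ht v hv]; exact abs_nonneg _
    · intro h
      have := h ρ hρ
      rw [map_add, ht ρ hρ, hs] at this
      simp at this; omega
  have h2 : w (s + t) = 0 := by
    apply hw
    · intro v hv; rw [map_add, ht v hv]; linarith [neg_abs_le (v s)]
    · intro h
      have := h ρ hρ
      rw [map_add, map_add, ht ρ hρ, hs] at this
      simp at this; omega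
  rw [map_add, h1] at h2
  simpa using h2

lemma Tm_eq {m : M} {W : Finset (M →+ ℤ)} (hW : Du W) {w : M →+ k} (hw : w ∈ Tm k m W)
    {ρ : M →+ ℤ} (hρ : ρ ∈ W) (hm : ρ m < 0) {e : M} (he : ρ e = 1) (s : M) :
    w s = w e * (ρ s : k) := by
  have := Tm_ker hW hw hρ hm (s - ρ s • e) (by simp [he])
  rw [map_sub, map_zsmul] at this
  rw [sub_eq_zero.1 this, zsmul_eq_mul, mul_comm]

lemma Tm_zero {m : M} {W : Finset (M →+ ℤ)} (hW : Du W) {w : M →+ k} (hw : w ∈ Tm k m W)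
    {ρ : M →+ ℤ} (hρ : ρ ∈ W) (hm : ρ m < 0)
    (h2 : ρ m ≤ -2 ∨ ∃ ρ' ∈ W, ρ' ≠ ρ ∧ ρ' m < 0) : w = 0 := by
  obtain ⟨e, he1, he2⟩ := hW ρ hρ
  have : w e = 0 := by
    rcases h2 with h2 | ⟨ρ', h1, h2, h3⟩
    · apply hw
      · intro v hv
        by_cases h : v = ρ
        · rw [h, he1]; norm_num
        · rw [he2 v hv h]
      · intro h
        have := h ρ hρ
        rw [map_add, he1] at this
        omega
    · exact Tm_ker hW hw h1 h3 e (he2 ρ' h1 h2)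
  ext s
  rw [Tm_eq hW hw hρ hm he1 s, this]; simp

variable (V : ι → Finset (M →+ ℤ))

/-- scalar connectivity -/
def Conn (k : Type) [Field k] (V : ι → Finset (M →+ ℤ)) (B : Set (M →+ ℤ)) : Prop :=
  ∀ f : ι → k, (∀ i j, (∃ v ∈ B, v ∈ V i ∧ v ∈ V j) → f i = f j) →
    ∀ i j, (∃ v ∈ B, v ∈ V i) → (∃ v ∈ B, v ∈ V j) → f i = f j

def C2 (k : Type) [Field k] (V : ι → Finset (M →+ ℤ)) (B : Set (M →+ ℤ)) : Prop :=
  ∀ g : ι → ι → ι → k, (∀ i j l, (∃ v ∈ B, v ∈ V i ∧ v ∈ V j ∧ v ∈ V l) → g i j l = 0) →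
    (∀ i j l m, g j l m - g i l m + g i j m - g i j l = 0) →
    ∃ β : ι → ι → k, (∀ i j, (∃ v ∈ B, v ∈ V i ∧ v ∈ V j) → β i j = 0) ∧
      ∀ i j l, g i j l = β j l - β i l + β i j

variable {V}

lemma Conn.gen {B : Set (M →+ ℤ)} (h : Conn k V B) {X : Type} (f : ι → X)
    (hf : ∀ i j, (∃ v ∈ B, v ∈ V i ∧ v ∈ V j) → f i = f j) (i j : ι)
    (hi : ∃ v ∈ B, v ∈ V i) (hj : ∃ v ∈ B, v ∈ V j) : f i = f j := by
  classical
  have := h (fun l => if f l = f i then 1 else 0) (fun a b hab => by simp [hf a b hab]) i j hi hj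
  by_contra hne
  simp [Ne.symm hne] at this

lemma Conn.cob {B : Set (M →+ ℤ)} (h : Conn k V B) {X : Type} [AddCommGroup X]
    (c : ι → ι → X) (hc : ∀ i j, (∃ v ∈ B, v ∈ V i ∧ v ∈ V j) → c i j = 0)
    (hz : ∀ i j l, c j l - c i l + c i j = 0) :
    ∃ b : ι → X, (∀ i, (∃ v ∈ B, v ∈ V i) → b i = 0) ∧ ∀ i j, c i j = b j - b i := by
  by_cases hb : ∃ i, ∃ v ∈ B, v ∈ V i
  · obtain ⟨i0, hi0⟩ := hb
    refine ⟨fun i => c i0 i, fun i hi => ?_, fun i j => ?_⟩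
    · have := h.gen (fun i => c i0 i) (fun a b hab => by
        have h1 := hz i0 a b
        rw [hc a b hab] at h1
        show c i0 a = c i0 b
        rw [zero_sub, neg_add_eq_zero] at h1
        exact h1.symm) i i0 hi hi0
      show c i0 i = 0
      rw [this]
      obtain ⟨v, hv, hv'⟩ := hi0
      exact hc i0 i0 ⟨v, hv, hv', hv'⟩
    · have h1 := hz i0 i j
      show c i j = c i0 j - c i0 i
      rw [← sub_eq_zero, ← h1]; abel
  · rcases isEmpty_or_nonempty ι with hι | ⟨⟨i0⟩⟩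
    · exact ⟨fun _ => 0, fun i => hι.elim i, fun i => hι.elim i⟩
    · refine ⟨fun i => c i0 i, fun i hi => absurd ⟨i, hi⟩ hb, fun i j => ?_⟩
      have h1 := hz i0 i j
      show c i j = c i0 j - c i0 i
      rw [← sub_eq_zero, ← h1]; abel

def Bad (q : ℕ) (m u : M) : Set (M →+ ℤ) := {v | v m + v u % q < 0}

lemma conn_del {q : ℕ} (hq : 2 ≤ q) (hV : ∀ i, Du (V i)) (m : M)
    (hB : ∀ m u, Conn k V (Bad q m u)) (ρ : M →+ ℤ) :
    Conn k V {v | v m < 0 ∧ (v ≠ ρ ∨ v m ≤ -2)} := by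
  classical
  have hN : Conn k V {v | v m < 0} := by
    have := hB m 0
    simpa [Bad] using this
  by_cases hρ : ρ m = -1
  swap
  · have : {v : M →+ ℤ | v m < 0 ∧ (v ≠ ρ ∨ v m ≤ -2)} = {v | v m < 0} := by
      ext v
      simp only [Set.mem_ofPred_eq]
      constructor
      · exact fun h => h.1
      · intro h
        refine ⟨h, ?_⟩
        by_cases hv : v = ρ
        · right; rw [hv] at h ⊢; omega
        · left; exact hv
    rw [this]; exact hN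
  intro f hf
  have hq' : (2 : ℤ) ≤ q := by exact_mod_cast hq
  have step : ∀ i j, ρ ∈ V i → ρ ∈ V j → (∃ v ∈ {v : M →+ ℤ | v m < 0 ∧ (v ≠ ρ ∨ v m ≤ -2)},
      v ∈ V i) → (∃ v ∈ {v : M →+ ℤ | v m < 0 ∧ (v ≠ ρ ∨ v m ≤ -2)}, v ∈ V j) → f i = f j := by
    rintro i j hi hj ⟨ρ1, ⟨h1, h1'⟩, h1i⟩ ⟨ρ2, ⟨h2, h2'⟩, h2j⟩
    have n1 : ρ1 ≠ ρ := by rintro rfl; rcases h1' with h | h; exact h rfl; omega
    have n2 : ρ2 ≠ ρ := by rintro rfl; rcases h2' with h | h; exact h rfl; omega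
    obtain ⟨e1, a1, b1⟩ := hV i ρ1 h1i
    obtain ⟨e2, a2, b2⟩ := hV j ρ2 h2j
    have c1 := b1 ρ hi n1.symm
    have c2 := b2 ρ hj n2.symm
    have nd : ¬ (q : ℤ) ∣ 1 := fun h => by
      have := Int.le_of_dvd one_pos h; omega
    obtain ⟨w, w0, w1, w2⟩ : ∃ w : M, ρ w = 0 ∧ ¬ (q : ℤ) ∣ ρ1 w ∧ ¬ (q : ℤ) ∣ ρ2 w := by
      by_cases d1 : (q : ℤ) ∣ ρ2 e1
      · by_cases d2 : (q : ℤ) ∣ ρ1 e2
        · refine ⟨e1 + e2, by simp [c1, c2], ?_, ?_⟩
          · rw [map_add, a1]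
            intro h; exact nd ((dvd_add_left d2).1 h)
          · rw [map_add, a2]
            intro h; exact nd ((dvd_add_right d1).1 h)
        · exact ⟨e2, c2, d2, by rw [a2]; exact nd⟩
      · exact ⟨e1, c1, by rw [a1]; exact nd, d1⟩
    have key : ∀ v : M →+ ℤ, v m < 0 → ¬ (q : ℤ) ∣ v w →
        v ∈ Bad q (((q : ℤ) - 1) • m) (m + w) := by
      intro v hv hd
      simp only [Bad, Set.mem_ofPred_eq, map_zsmul, map_add, smul_eq_mul]
      have r1 : (v m + v w) % q < q := Int.emod_lt_of_pos _ (by omega)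
      by_cases h : v m = -1
      · rw [h]
        rw [h] at r1
        have : (-1 + v w) % q ≠ q - 1 := by
          intro h'
          apply hd
          have := Int.mul_ediv_add_emod (-1 + v w) q
          exact ⟨(-1 + v w) / q + 1, by rw [h'] at this; linarith⟩
        omega
      · have : v m ≤ -2 := by omega
        nlinarith
    refine hB (((q : ℤ) - 1) • m) (m + w) f ?_ i j ⟨ρ1, key ρ1 h1 w1, h1i⟩ ⟨ρ2, key ρ2 h2 w2, h2j⟩
    rintro a b ⟨v, hv, ha, hb⟩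
    apply hf a b
    refine ⟨v, ?_, ha, hb⟩
    simp only [Bad, Set.mem_ofPred_eq, map_zsmul, map_add, smul_eq_mul] at hv
    have r0 : 0 ≤ (v m + v w) % q := Int.emod_nonneg _ (by omega)
    refine ⟨?_, Or.inl ?_⟩
    · by_contra h
      push Not at h
      have : 0 ≤ ((q : ℤ) - 1) * v m := mul_nonneg (by omega) h
      omega
    · rintro rfl
      rw [hρ, w0] at hv
      have : (-1 + 0 : ℤ) % q = q - 1 := by
        have h3 : (-1 + 0 : ℤ) = (q - 1) + q * (-1) := by ring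
        rw [h3, Int.add_mul_emod_self_left]
        exact Int.emod_eq_of_lt (by omega) (by omega)
      rw [this] at hv
      linarith
  set B : Set (M →+ ℤ) := {v : M →+ ℤ | v m < 0 ∧ (v ≠ ρ ∨ v m ≤ -2)} with hBdef
  obtain ⟨lam, hlam⟩ : ∃ lam : k, ∀ i, ρ ∈ V i → (∃ v ∈ B, v ∈ V i) → f i = lam := by
    by_cases h : ∃ i, ρ ∈ V i ∧ ∃ v ∈ B, v ∈ V i
    · obtain ⟨i0, h0, h0'⟩ := h
      exact ⟨f i0, fun i hi hi' => step i i0 hi h0 hi' h0'⟩
    · exact ⟨0, fun i hi hi' => absurd ⟨i, hi, hi'⟩ h⟩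
  intro i j hi hj
  have := hN (fun l => if ∃ v ∈ B, v ∈ V l then f l else lam) ?_ i j
    (by obtain ⟨v, hv, hv'⟩ := hi; exact ⟨v, hv.1, hv'⟩)
    (by obtain ⟨v, hv, hv'⟩ := hj; exact ⟨v, hv.1, hv'⟩)
  · simpa [hi, hj] using this
  · rintro a b ⟨v, hv, ha, hb⟩
    by_cases h : v = ρ
    · subst h
      have ea : (if ∃ v ∈ B, v ∈ V a then f a else lam) = lam := by
        split_ifs with h
        · exact hlam a ha h
        · rfl
      have eb : (if ∃ v ∈ B, v ∈ V b then f b else lam) = lam := by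
        split_ifs with h
        · exact hlam b hb h
        · rfl
      simp only [ea, eb]
    · have hvB : v ∈ B := ⟨hv, Or.inl h⟩
      have ha' : ∃ v ∈ B, v ∈ V a := ⟨v, hvB, ha⟩
      have hb' : ∃ v ∈ B, v ∈ V b := ⟨v, hvB, hb⟩
      simp only [ha', hb', if_true]
      exact hf a b ⟨v, hvB, ha, hb⟩

/-- cast of an integral functional -/
def cst (k : Type) [Field k] (v : M →+ ℤ) : M →+ k := (Int.castAddHom k).comp v

@[simp] lemma cst_apply (v : M →+ ℤ) (s : M) : cst k v s = (v s : k) := rfl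

theorem comb [Fintype ι] [DecidableEq (M →+ ℤ)] {q : ℕ} (hq : 2 ≤ q) (hV : ∀ i, Du (V i)) (m : M)
    (hB : ∀ m u, Conn k V (Bad q m u)) (hC : C2 k V {v | v m < 0})
    (c : ι → ι → (M →+ k)) (hc : ∀ i j, c i j ∈ Tm k m (V i ∩ V j))
    (hz : ∀ i j l, c j l - c i l + c i j = 0) :
    ∃ b : ι → (M →+ k), (∀ i, b i ∈ Tm k m (V i)) ∧ ∀ i j, c i j = b j - b i := by
  classical
  have hN : Conn k V {v | v m < 0} := by
    have := hB m 0
    simpa [Bad] using this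
  have hVV : ∀ i j, Du (V i ∩ V j) := fun i j => (hV i).mono Finset.inter_subset_left
  set P : Finset (M →+ ℤ) := (univ.biUnion V).filter (fun v => v m < 0) with hP
  have hE : ∀ v ∈ P, ∃ e : M, v e = 1 := by
    intro v hv
    simp only [hP, mem_filter, mem_biUnion, mem_univ, true_and] at hv
    obtain ⟨⟨i, hi⟩, -⟩ := hv
    obtain ⟨e, he, -⟩ := hV i v hi
    exact ⟨e, he⟩
  choose! E hE using hE
  have memP : ∀ i, ∀ v ∈ V i, v m < 0 → v ∈ P := by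
    intro i v hv hm
    simp only [hP, mem_filter, mem_biUnion, mem_univ, true_and]
    exact ⟨⟨i, hv⟩, hm⟩
  have negP : ∀ v ∈ P, v m < 0 := fun v hv => (mem_filter.1 hv).2
  set γ : (M →+ ℤ) → ι → ι → k := fun ρ i j => if ρ ∈ V i ∧ ρ ∈ V j then c i j (E ρ) else 0
    with hγ
  have γ0 : ∀ ρ ∈ P, ∀ i j, (∃ v ∈ {v : M →+ ℤ | v m < 0 ∧ (v ≠ ρ ∨ v m ≤ -2)},
      v ∈ V i ∧ v ∈ V j) → γ ρ i j = 0 := by
    rintro ρ hρ i j ⟨v, ⟨h1, h2⟩, hi, hj⟩
    simp only [hγ]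
    split_ifs with h
    · have : c i j = 0 := by
        apply Tm_zero (hVV i j) (hc i j) (mem_inter.2 ⟨hi, hj⟩) h1
        rcases h2 with h2 | h2
        · exact Or.inr ⟨ρ, mem_inter.2 h, h2.symm, negP ρ hρ⟩
        · exact Or.inl h2
      simp [this]
    · rfl
  have hβ : ∀ ρ ∈ P, ∃ β : ι → ι → k,
      (∀ i j, (∃ v ∈ {v : M →+ ℤ | v m < 0}, v ∈ V i ∧ v ∈ V j) → β i j = 0) ∧
      ∀ i j l, γ ρ j l - γ ρ i l + γ ρ i j = β j l - β i l + β i j := by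
    intro ρ hρ
    apply hC (fun i j l => γ ρ j l - γ ρ i l + γ ρ i j)
    · rintro i j l ⟨v, hv, hi, hj, hl⟩
      by_cases h : v = ρ
      · subst h
        have := congrArg (fun w : M →+ k => w (E v)) (hz i j l)
        simpa [hγ, hi, hj, hl] using this
      · rw [γ0 ρ hρ j l ⟨v, ⟨hv, Or.inl h⟩, hj, hl⟩, γ0 ρ hρ i l ⟨v, ⟨hv, Or.inl h⟩, hi, hl⟩,
          γ0 ρ hρ i j ⟨v, ⟨hv, Or.inl h⟩, hi, hj⟩]
        simp
    · intro i j l n
      ring
  choose! β hβ1 hβ2 using hβ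
  have hη : ∀ ρ ∈ P, ∃ η : ι → k,
      (∀ i, (∃ v ∈ {v : M →+ ℤ | v m < 0 ∧ (v ≠ ρ ∨ v m ≤ -2)}, v ∈ V i) → η i = 0) ∧
      ∀ i j, γ ρ i j - β ρ i j = η j - η i := by
    intro ρ hρ
    apply (conn_del hq hV m hB ρ).cob (fun i j => γ ρ i j - β ρ i j)
    · intro i j h
      rw [γ0 ρ hρ i j h, hβ1 ρ hρ i j]
      · simp
      · obtain ⟨v, hv, h⟩ := h
        exact ⟨v, hv.1, h⟩
    · intro i j l
      linear_combination hβ2 ρ hρ i j l
  choose! η hη1 hη2 using hη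
  set θ : ι → (M →+ k) := fun i => ∑ ρ ∈ P, η ρ i • cst k ρ with hθ
  have θapp : ∀ i s, θ i s = ∑ ρ ∈ P, η ρ i * (ρ s : k) := by
    intro i s
    simp [hθ]
  obtain ⟨ζ, hζ1, hζ2⟩ := hN.cob (fun i j => c i j - (θ j - θ i)) (by
    rintro i j ⟨v, hv, hi, hj⟩
    have hvP := memP i v hi hv
    ext s
    simp only [AddMonoidHom.sub_apply, θapp, AddMonoidHom.zero_apply]
    rw [← Finset.sum_sub_distrib, Finset.sum_eq_single v]
    · rw [← sub_mul, ← hη2 v hvP, hβ1 v hvP i j ⟨v, hv, hi, hj⟩,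
        Tm_eq (hVV i j) (hc i j) (mem_inter.2 ⟨hi, hj⟩) hv (hE v hvP) s]
      simp [hγ, hi, hj]
    · intro ρ hρ hne
      rw [← sub_mul, ← hη2 ρ hρ, hβ1 ρ hρ i j ⟨v, hv, hi, hj⟩,
        γ0 ρ hρ i j ⟨v, ⟨hv, Or.inl hne.symm⟩, hi, hj⟩]
      simp
    · intro h; exact absurd hvP h) (by
    intro i j l
    rw [← hz i j l]; abel)
  refine ⟨fun i => ζ i + θ i, fun i s hs hs' => ?_, fun i j => ?_⟩
  · rw [mem_dual] at hs hs'
    push Not at hs'
    obtain ⟨v, hv, hv'⟩ := hs'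
    have h0 := hs v hv
    rw [map_add] at hv'
    have hm : v m < 0 := by omega
    simp only [AddMonoidHom.add_apply, θapp]
    rw [hζ1 i ⟨v, hm, hv⟩, AddMonoidHom.zero_apply, zero_add]
    apply Finset.sum_eq_zero
    intro ρ hρ
    by_cases h : v ≠ ρ ∨ v m ≤ -2
    · rw [hη1 ρ hρ i ⟨v, ⟨hm, h⟩, hv⟩, zero_mul]
    · push Not at h
      obtain ⟨h1, h2⟩ := h
      subst h1
      have : v s = 0 := by omega
      simp [this]
  · have := hζ2 i j
    show c i j = ζ j + θ j - (ζ i + θ i)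
    rw [sub_eq_iff_eq_add] at this
    rw [this]; abel

end Pool.Agent.Lib.MP_cd184e_ag
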