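import Mathlib

namespace Pool.Agent.Lib.MP_cd184e_ag

/-- Coordinate ring of the standard affine chart `x i ≠ 0` of the projective toric variety
parametrised by the monomials with exponents `a j`. -/
noncomputable def chart (k : Type) [Field k] {M ι : Type} [AddCommGroup M] (a : ι → M) (i : ι) :
    Subalgebra k (AddMonoidAlgebra k M) :=
  Algebra.adjoin k (Set.range fun j => AddMonoidAlgebra.single (a j - a i) (1 : k))

variable {k R G ι : Type} [Field k] [CommRing R] [Algebra k R] [AddCommGroup G]

/-- Sections of the tangent sheaf over the affine open set with coordinate ring `A`. -/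
def tang (A : Subalgebra k R) : Set (Derivation k R R) := {D | ∀ x ∈ A, D x ∈ A}

/-- Sections of the endomorphism sheaf of the Frobenius pushforward of the structure sheaf. -/
def fend (q : ℕ) (A : Subalgebra k R) : Set (R →+ R) :=
  {φ | (∀ f x, φ (f ^ q * x) = f ^ q * φ x) ∧ ∀ x ∈ A, φ x ∈ A}

/-- Vanishing of the first Cech cohomology group. -/
def H1 (F : Subalgebra k R → Set G) (A : ι → Subalgebra k R) : Prop :=
  ∀ c : ι → ι → G, (∀ i j, c i j ∈ F (A i ⊔ A j)) → (∀ i j l, c j l - c i l + c i j = 0) →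
    ∃ b : ι → G, (∀ i, b i ∈ F (A i)) ∧ ∀ i j, c i j = b j - b i

/-- Vanishing of the second Cech cohomology group. -/
def H2 (F : Subalgebra k R → Set G) (A : ι → Subalgebra k R) : Prop :=
  ∀ c : ι → ι → ι → G, (∀ i j l, c i j l ∈ F (A i ⊔ A j ⊔ A l)) →
    (∀ i j l m, c j l m - c i l m + c i j m - c i j l = 0) →
    ∃ b : ι → ι → G, (∀ i j, b i j ∈ F (A i ⊔ A j)) ∧ ∀ i j l, c i j l = b j l - b i l + b i j

end Pool.Agent.Lib.MP_cd184e_ag
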