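import Mathlib
import Pool.Agent.Lib.MP_cd184e_ag.Defs
import Pool.Agent.Lib.MP_cd184e_ag.Comb

namespace Pool.Agent.Lib.MP_cd184e_ag

open Finset AddMonoidAlgebra

variable {k M ι : Type} [Field k] [AddCommGroup M]

lemma supp_ind {S : AddSubmonoid M} {p : AddMonoidAlgebra k M → Prop} {x : AddMonoidAlgebra k M}
    (hx : ∀ m ∉ S, x.coeff m = 0) (h0 : p 0) (hadd : ∀ x y, p x → p y → p (x + y))
    (hs : ∀ s ∈ S, ∀ c : k, p (single s c)) : p x := by
  rw [← AddMonoidAlgebra.sum_coeff_single x, Finsupp.sum]
  apply Finset.sum_induction _ p hadd h0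
  intro s hs'
  apply hs
  by_contra h
  exact (Finsupp.mem_support_iff.1 hs') (hx s h)

omit [AddCommGroup M] in
lemma coeff_single' (s t : M) (c : k) [Decidable (s = t)] :
    (single s c : AddMonoidAlgebra k M).coeff t = if s = t then c else 0 := by
  simp [Finsupp.single_apply]

/-- monoid subalgebra -/
def sub (k : Type) [Field k] (S : AddSubmonoid M) : Subalgebra k (AddMonoidAlgebra k M) where
  carrier := {x | ∀ m ∉ S, x.coeff m = 0}
  add_mem' := by
    intro a b ha hb m hm
    simp [ha m hm, hb m hm]
  mul_mem' := by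
    classical
    intro a b ha hb
    refine supp_ind (S := S) (p := fun a => ∀ m ∉ S, (a * b).coeff m = 0) ha (by simp) ?_ ?_
    · intro x y hx hy m hm
      simp [add_mul, hx m hm, hy m hm]
    · intro s hs c m hm
      rw [coeff_single_mul_apply, hb, mul_zero]
      intro h
      apply hm
      have := S.add_mem hs h
      simpa using this
  algebraMap_mem' := by
    classical
    intro r m hm
    have : (0 : M) ≠ m := by rintro rfl; exact hm S.zero_mem
    simp [this]

lemma mem_sub {S : AddSubmonoid M} {x : AddMonoidAlgebra k M} :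
    x ∈ sub k S ↔ ∀ m ∉ S, x.coeff m = 0 := Iff.rfl

lemma single_mem_sub {S : AddSubmonoid M} {s : M} (hs : s ∈ S) (c : k) :
    single s c ∈ sub k S := by
  classical
  intro m hm
  rw [coeff_single', if_neg]
  rintro rfl; exact hm hs

lemma sub_le {S : AddSubmonoid M} {A : Subalgebra k (AddMonoidAlgebra k M)}
    (h : ∀ s ∈ S, single s (1 : k) ∈ A) : sub k S ≤ A := by
  intro x hx
  refine supp_ind (S := S) (p := fun x => x ∈ A) hx A.zero_mem (fun _ _ => A.add_mem) ?_
  intro s hs c
  have := A.smul_mem (h s hs) c
  simpa using this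

lemma sub_mono {S T : AddSubmonoid M} (h : S ≤ T) : sub k S ≤ sub k T :=
  sub_le fun _ hs => single_mem_sub (h hs) _

lemma sub_sup (S T : AddSubmonoid M) : sub k S ⊔ sub k T = sub k (S ⊔ T) := by
  apply le_antisymm
  · exact sup_le (sub_mono le_sup_left) (sub_mono le_sup_right)
  · apply sub_le
    intro s hs
    obtain ⟨a, ha, b, hb, rfl⟩ := AddSubmonoid.mem_sup.1 hs
    have : (single (a + b) (1 : k) : AddMonoidAlgebra k M) = single a 1 * single b 1 := by
      simp [single_mul_single]
    rw [this]
    exact Subalgebra.mul_mem _ ((le_sup_left : sub k S ≤ _) (single_mem_sub ha _))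
      ((le_sup_right : sub k T ≤ _) (single_mem_sub hb _))

lemma chart_eq (a : ι → M) (i : ι) :
    chart k a i = sub k (AddSubmonoid.closure (Set.range fun j => a j - a i)) := by
  apply le_antisymm
  · apply Algebra.adjoin_le
    rintro _ ⟨j, rfl⟩
    exact single_mem_sub (AddSubmonoid.subset_closure (Set.mem_range_self j)) _
  · apply sub_le
    intro s hs
    induction hs using AddSubmonoid.closure_induction with
    | mem x hx =>
      obtain ⟨j, rfl⟩ := hx
      exact Algebra.subset_adjoin ⟨j, rfl⟩
    | zero => exact Subalgebra.one_mem _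
    | add a b _ _ ha hb =>
      have : (single (a + b) (1 : k) : AddMonoidAlgebra k M) = single a 1 * single b 1 := by
        simp [single_mul_single]
      rw [this]
      exact Subalgebra.mul_mem _ ha hb

/-- weighted shift -/
noncomputable def shift (m : M) (w : M → k) :
    AddMonoidAlgebra k M →ₗ[k] AddMonoidAlgebra k M :=
  (AddMonoidAlgebra.basis M k).constr k (fun s => single (s + m) (w s))

lemma shift_single (m : M) (w : M → k) (s : M) (c : k) :
    shift m w (single s c) = single (s + m) (c * w s) := by
  have : (single s c : AddMonoidAlgebra k M) = c • AddMonoidAlgebra.basis M k s := by simp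
  rw [this, map_smul, shift, Module.Basis.constr_basis]
  simp

lemma shift_mem {S : AddSubmonoid M} (m : M) (w : M → k)
    (h : ∀ s ∈ S, s + m ∉ S → w s = 0) {x : AddMonoidAlgebra k M} (hx : x ∈ sub k S) :
    shift m w x ∈ sub k S := by
  refine supp_ind (S := S) (p := fun x => shift m w x ∈ sub k S) hx ?_ ?_ ?_
  · rw [map_zero]; exact Subalgebra.zero_mem _
  · intro x y hx hy
    rw [map_add]; exact Subalgebra.add_mem _ hx hy
  · intro s hs c
    rw [shift_single]
    by_cases h' : s + m ∈ S
    · exact single_mem_sub h' _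
    · rw [h s hs h']; simp

lemma shift_frob (p e : ℕ) [Fact p.Prime] [CharP k p] (m : M) (w : M → k)
    (hw : ∀ s t, w ((p ^ e) • t + s) = w s) (f x : AddMonoidAlgebra k M) :
    shift m w (f ^ (p ^ e) * x) = f ^ (p ^ e) * shift m w x := by
  have : CharP (AddMonoidAlgebra k M) p :=
    charP_of_injective_algebraMap (algebraMap k (AddMonoidAlgebra k M)).injective p
  have hq : p ^ e ≠ 0 := pow_ne_zero _ (Fact.out : p.Prime).ne_zero
  induction f using AddMonoidAlgebra.induction_linear with
  | zero => simp [zero_pow hq]
  | add f g hf hg => rw [add_pow_char_pow, add_mul, map_add, hf, hg, add_mul]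
  | single t c =>
    induction x using AddMonoidAlgebra.induction_linear with
    | zero => simp
    | add x y hx hy => rw [mul_add, map_add, hx, hy, map_add, mul_add]
    | single s d =>
      rw [single_pow, single_mul_single, shift_single, shift_single, single_mul_single, hw,
        add_assoc, mul_assoc]

open Classical in
/-- the basic operator -/
noncomputable def op (k : Type) [Field k] (q : ℕ) (m u : M) (c : k) :
    AddMonoidAlgebra k M →+ AddMonoidAlgebra k M :=
  (shift m (fun s => if ∃ t : M, s = q • t + u then c else 0)).toAddMonoidHom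

lemma op_single (q : ℕ) (m u : M) (c : k) : op k q m u c (single u 1) = single (u + m) c := by
  have : ∃ t : M, u = q • t + u := ⟨0, by simp⟩
  simp only [op, LinearMap.toAddMonoidHom_coe, shift_single, if_pos this, one_mul]

lemma op_add (q : ℕ) (m u : M) (c d : k) :
    op k q m u (c + d) = op k q m u c + op k q m u d := by
  apply AddMonoidAlgebra.addMonoidHom_ext
  intro s r
  simp only [op, LinearMap.toAddMonoidHom_coe, shift_single, AddMonoidHom.add_apply]
  split_ifs <;> simp [mul_add, single_add]

/-- as an additive map -/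
noncomputable def opH (k : Type) [Field k] (q : ℕ) (m u : M) :
    k →+ (AddMonoidAlgebra k M →+ AddMonoidAlgebra k M) :=
  AddMonoidHom.mk' (op k q m u) (op_add q m u)

lemma opH_apply (q : ℕ) (m u : M) (c : k) : opH k q m u c = op k q m u c := rfl

lemma op_mem (p e : ℕ) [Fact p.Prime] [CharP k p] (m u : M) (c : k) (W : Finset (M →+ ℤ))
    (h : (∃ v ∈ Bad (p ^ e) m u, v ∈ W) → c = 0) :
    op k (p ^ e) m u c ∈ fend (p ^ e) (sub k (dual W)) := by
  classical
  constructor
  · intro f x
    apply shift_frob
    intro s t
    congr 1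
    apply propext
    constructor
    · rintro ⟨r, hr⟩
      refine ⟨r - t, ?_⟩
      rw [smul_sub, sub_add_eq_add_sub, ← hr]; abel
    · rintro ⟨r, rfl⟩
      exact ⟨t + r, by rw [smul_add, add_assoc]⟩
  · intro x hx
    apply shift_mem _ _ _ hx
    intro s hs hs'
    split_ifs with h'
    · apply h
      obtain ⟨t, rfl⟩ := h'
      rw [mem_dual] at hs hs'
      push Not at hs'
      obtain ⟨v, hv, hv'⟩ := hs'
      refine ⟨v, ?_, hv⟩
      have h0 := hs v hv
      simp only [map_add, map_nsmul, nsmul_eq_mul] at h0 hv'
      show v m + v u % ((p ^ e : ℕ) : ℤ) < 0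
      have hq : (0 : ℤ) < ((p ^ e : ℕ) : ℤ) := by
        exact_mod_cast pow_pos (Fact.out : p.Prime).pos e
      have h1 : v u % ((p ^ e : ℕ) : ℤ) = (((p ^ e : ℕ) : ℤ) * v t + v u) % ((p ^ e : ℕ) : ℤ) := by
        rw [add_comm, Int.add_mul_emod_self_left]
      have h2 : (((p ^ e : ℕ) : ℤ) * v t + v u) % ((p ^ e : ℕ) : ℤ) ≤
          ((p ^ e : ℕ) : ℤ) * v t + v u := by
        rw [Int.emod_def]
        have := mul_nonneg hq.le (Int.ediv_nonneg h0 hq.le)
        linarith
      omega
    · rfl

lemma fend_coeff {q : ℕ} (hq : 0 < q) {W : Finset (M →+ ℤ)} (hW : Du W) (m u : M)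
    {φ : AddMonoidAlgebra k M →+ AddMonoidAlgebra k M} (hφ : φ ∈ fend q (sub k (dual W)))
    (h : ∃ v ∈ Bad q m u, v ∈ W) : (φ (single u 1)).coeff (u + m) = 0 := by
  obtain ⟨v, hv, hvW⟩ := h
  obtain ⟨t, ht⟩ := hW.exists_val (fun v => -(v u / q))
  have hq' : (0 : ℤ) < q := by exact_mod_cast hq
  have key : ∀ v ∈ W, v (q • t + u) = v u % q := by
    intro v hv
    rw [map_add, map_nsmul, ht v hv, nsmul_eq_mul, Int.emod_def]; ring
  have hs : q • t + u ∈ dual W := by
    intro v hv
    rw [key v hv]; exact Int.emod_nonneg _ hq'.ne'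
  have h1 := hφ.2 _ (single_mem_sub hs (1 : k)) (q • t + u + m) (by
    intro h
    have := h v hvW
    rw [map_add, key v hvW] at this
    have hv' : v m + v u % q < 0 := hv
    omega)
  have h2 := hφ.1 (single t 1) (single u 1)
  rw [single_pow, single_mul_single, one_pow, one_mul] at h2
  rw [h2, coeff_single_mul_apply, one_mul] at h1
  rw [← h1]; congr 1; abel

/-- weight component of a derivation -/
noncomputable def wt (m : M) :
    Derivation k (AddMonoidAlgebra k M) (AddMonoidAlgebra k M) →+ (M →+ k) :=
  AddMonoidHom.mk' (fun D => AddMonoidHom.mk' (fun s => (D (single s 1)).coeff (s + m)) (by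
    intro s t
    have : (single (s + t) (1 : k) : AddMonoidAlgebra k M) = single s 1 * single t 1 := by
      simp [single_mul_single]
    rw [this, Derivation.leibniz, smul_eq_mul, smul_eq_mul, coeff_add, Finsupp.add_apply,
      coeff_single_mul_apply, coeff_single_mul_apply, one_mul, one_mul, add_comm]
    congr 2 <;> abel)) (by
    intro D E
    ext s
    simp)

lemma wt_apply (m : M) (D : Derivation k (AddMonoidAlgebra k M) (AddMonoidAlgebra k M)) (s : M) :
    wt m D s = (D (single s 1)).coeff (s + m) := rfl

/-- homogeneous derivation -/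
noncomputable def der (m : M) (w : M →+ k) :
    Derivation k (AddMonoidAlgebra k M) (AddMonoidAlgebra k M) :=
  Derivation.mk' (shift m w) (by
    intro x y
    induction x using AddMonoidAlgebra.induction_linear with
    | zero => simp
    | add x x' hx hx' => rw [add_mul, map_add, hx, hx', map_add, add_smul, smul_add]; abel
    | single s c =>
      induction y using AddMonoidAlgebra.induction_linear with
      | zero => simp
      | add y y' hy hy' => rw [mul_add, map_add, hy, hy', map_add, add_smul, smul_add]; abel
      | single t d =>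
        rw [single_mul_single, shift_single, shift_single, shift_single, smul_eq_mul, smul_eq_mul,
          single_mul_single, single_mul_single, map_add, add_assoc, add_left_comm t s m,
          ← single_add]
        congr 1; ring)

lemma der_apply (m : M) (w : M →+ k) (x : AddMonoidAlgebra k M) : der m w x = shift m w x := rfl

lemma wt_finite {g : Set M} (hg : g.Finite) (hgen : AddSubgroup.closure g = ⊤)
    (D : Derivation k (AddMonoidAlgebra k M) (AddMonoidAlgebra k M)) :
    {m | wt m D ≠ 0}.Finite := by
  refine (hg.biUnion (t := fun s => (fun t => t - s) '' ((D (single s 1)).coeff.support : Set M))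
    (fun s _ => (Finset.finite_toSet _).image _)).subset ?_
  intro m hm
  by_contra h
  apply hm
  apply AddMonoidHom.eq_of_eqOn_dense hgen
  intro s hs
  rw [wt_apply, AddMonoidHom.zero_apply]
  by_contra h'
  apply h
  simp only [Set.mem_iUnion]
  exact ⟨s, hs, s + m, by simpa using h', by simp⟩

theorem main_of_rays [Fintype ι] [DecidableEq (M →+ ℤ)] (p e : ℕ) [Fact p.Prime] [CharP k p]
    (he : 1 ≤ e) {g : Set M} (hg : g.Finite) (hgen : AddSubgroup.closure g = ⊤)
    (A : ι → Subalgebra k (AddMonoidAlgebra k M)) (V : ι → Finset (M →+ ℤ))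
    (hV : ∀ i, Du (V i)) (h1 : ∀ i, A i = sub k (dual (V i)))
    (h2 : ∀ i j, A i ⊔ A j = sub k (dual (V i ∩ V j)))
    (h3 : ∀ i j l, A i ⊔ A j ⊔ A l = sub k (dual (V i ∩ V j ∩ V l)))
    (H1e : H1 (fend (p ^ e)) A) (H2e : H2 (fend (p ^ e)) A) : H1 tang A := by
  classical
  have hq : 2 ≤ p ^ e := le_trans (Fact.out : p.Prime).two_le (Nat.le_self_pow (by omega) p)
  have hVV : ∀ i j, Du (V i ∩ V j) := fun i j => (hV i).mono Finset.inter_subset_left
  have hB : ∀ m u, Conn k V (Bad (p ^ e) m u) := by
    intro m u f hf
    obtain ⟨b, hb1, hb2⟩ := H1e (fun i j => opH k (p ^ e) m u (f j - f i)) (by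
      intro i j
      rw [h2, opH_apply]
      apply op_mem
      rintro ⟨v, hv, hv'⟩
      rw [hf i j ⟨v, hv, mem_inter.1 hv'⟩, sub_self]) (by
      intro i j l
      rw [← map_sub, ← map_add]
      convert map_zero (opH k (p ^ e) m u)
      ring)
    intro i j hi hj
    have e1 := fend_coeff (by omega) (hV i) m u (h1 i ▸ hb1 i) hi
    have e2 := fend_coeff (by omega) (hV j) m u (h1 j ▸ hb1 j) hj
    have := congrArg (fun φ : AddMonoidAlgebra k M →+ AddMonoidAlgebra k M =>
      (φ (single u 1)).coeff (u + m)) (hb2 i j)
    simp only [opH_apply, op_single, AddMonoidHom.sub_apply, coeff_sub, Finsupp.sub_apply, e1, e2,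
      coeff_single, Finsupp.single_eq_same] at this
    linear_combination -this
  have hC : ∀ m, C2 k V {v | v m < 0} := by
    intro m g hg hz
    have eB : Bad (p ^ e) m 0 = {v | v m < 0} := by simp [Bad]
    obtain ⟨b, hb1, hb2⟩ := H2e (fun i j l => opH k (p ^ e) m 0 (g i j l)) (by
      intro i j l
      rw [h3, opH_apply]
      apply op_mem
      rintro ⟨v, hv, hv'⟩
      rw [eB] at hv
      rw [mem_inter, mem_inter] at hv'
      exact hg i j l ⟨v, hv, hv'.1.1, hv'.1.2, hv'.2⟩) (by
      intro i j l n
      rw [← map_sub, ← map_add, ← map_sub, hz, map_zero])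
    refine ⟨fun i j => (b i j (single 0 1)).coeff (0 + m), ?_, ?_⟩
    · rintro i j ⟨v, hv, hv'⟩
      exact fend_coeff (by omega) (hVV i j) m 0 (h2 i j ▸ hb1 i j)
        ⟨v, eB ▸ hv, mem_inter.2 hv'⟩
    · intro i j l
      have := congrArg (fun φ : AddMonoidAlgebra k M →+ AddMonoidAlgebra k M =>
        (φ (single 0 1)).coeff (0 + m)) (hb2 i j l)
      simpa only [opH_apply, op_single, AddMonoidHom.sub_apply, AddMonoidHom.add_apply,
        coeff_sub, coeff_add, Finsupp.sub_apply, Finsupp.add_apply,
        coeff_single, Finsupp.single_eq_same] using this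
  intro c hc hz
  have hm : ∀ m, ∃ b : ι → (M →+ k), (∀ i, b i ∈ Tm k m (V i)) ∧
      ∀ i j, wt m (c i j) = b j - b i := by
    intro m
    apply comb hq hV m hB (hC m)
    · intro i j s hs hs'
      have := hc i j
      rw [h2] at this
      exact this _ (single_mem_sub hs 1) _ hs'
    · intro i j l
      rw [← map_sub, ← map_add, hz, map_zero]
  choose b hb1 hb2 using hm
  have hfin : (⋃ i, ⋃ j, {m | wt m (c i j) ≠ 0}).Finite :=
    Set.finite_iUnion fun i => Set.finite_iUnion fun j => wt_finite hg hgen _
  have sumapp : ∀ (F : Finset M) (D : M → Derivation k (AddMonoidAlgebra k M)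
      (AddMonoidAlgebra k M)) x, (∑ m ∈ F, D m) x = ∑ m ∈ F, D m x := by
    intro F D x
    induction F using Finset.induction_on with
    | empty => simp
    | insert a F ha ih => rw [Finset.sum_insert ha, Finset.sum_insert ha, Derivation.add_apply, ih]
  refine ⟨fun i => ∑ m ∈ hfin.toFinset, der m (b m i), fun i x hx => ?_, fun i j => ?_⟩
  · rw [sumapp]
    rw [h1] at hx ⊢
    apply Subalgebra.sum_mem
    intro m _
    exact shift_mem _ _ (hb1 m i) hx
  · apply Derivation.ext
    intro x
    induction x using AddMonoidAlgebra.induction_linear with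
    | zero => simp
    | add x y hx hy => rw [map_add, map_add, hx, hy]
    | single s r =>
      have : (single s r : AddMonoidAlgebra k M) = r • single s 1 := by simp
      rw [this, Derivation.map_smul, Derivation.map_smul]
      congr 1
      rw [Derivation.sub_apply, sumapp, sumapp, ← Finset.sum_sub_distrib]
      ext t
      rw [coeff_sum, Finsupp.finsetSum_apply]
      have e1 : ((c i j) (single s 1)).coeff t = wt (t - s) (c i j) s := by
        rw [wt_apply]; congr 1; abel
      have e2 : ∀ m, (der m (b m j) (single s 1) - der m (b m i) (single s 1)).coeff t =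
          if m = t - s then wt m (c i j) s else 0 := by
        intro m
        rw [der_apply, der_apply, shift_single, shift_single, ← single_sub, coeff_single', hb2]
        simp [eq_sub_iff_add_eq']
      simp only [e1, e2, Finset.sum_ite_eq']
      split_ifs with h
      · rfl
      · by_contra h'
        apply h
        simp only [Set.Finite.mem_toFinset, Set.mem_iUnion]
        exact ⟨i, j, fun h0 => h' (by rw [h0]; rfl)⟩

end Pool.Agent.Lib.MP_cd184e_ag
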