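import Mathlib
import Pool.Agent.Lib.MP_cd184e_ag.Comb

namespace Pool.Agent.Lib.MP_cd184e_ag

open Finset

variable {M ι : Type} [AddCommGroup M]

lemma expand {W W' : Finset (M →+ ℤ)} (h : dual W' ≤ dual W) (e : (M →+ ℤ) → M)
    (he1 : ∀ v ∈ W', v (e v) = 1) (he2 : ∀ v ∈ W', ∀ v' ∈ W', v' ≠ v → v' (e v) = 0)
    {v : M →+ ℤ} (hv : v ∈ W) (s : M) : v s = ∑ v' ∈ W', v' s * v (e v') := by
  classical
  have key : ∀ u ∈ W', u (s - ∑ v' ∈ W', v' s • e v') = 0 := by
    intro u hu
    rw [map_sub, map_sum, Finset.sum_eq_single u]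
    · simp [he1 u hu]
    · intro v' hv' hne
      simp [he2 v' hv' u hu (Ne.symm hne)]
    · intro h; exact absurd hu h
  have h1 : s - ∑ v' ∈ W', v' s • e v' ∈ dual W := h fun u hu => (key u hu).ge
  have h2 : -(s - ∑ v' ∈ W', v' s • e v') ∈ dual W := h fun u hu => by
    rw [map_neg, key u hu]; simp
  have h3 := h1 v hv
  have h4 := h2 v hv
  rw [map_neg] at h4
  have h5 : v (s - ∑ v' ∈ W', v' s • e v') = 0 := by omega
  rw [map_sub, map_sum, sub_eq_zero] at h5
  simpa using h5

lemma dual_inj {W W' : Finset (M →+ ℤ)} (hW : Du W) (hW' : Du W') (h : dual W = dual W') :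
    W ⊆ W' := by
  classical
  choose! e he1 he2 using hW
  choose! e' he1' he2' using hW'
  have pos : ∀ v ∈ W, e v ∈ dual W := by
    intro v hv u hu
    by_cases huv : u = v
    · rw [huv, he1 v hv]; norm_num
    · rw [he2 v hv u hu huv]
  have pos' : ∀ v ∈ W', e' v ∈ dual W' := by
    intro v hv u hu
    by_cases huv : u = v
    · rw [huv, he1' v hv]; norm_num
    · rw [he2' v hv u hu huv]
  intro v hv
  have nn : ∀ u ∈ W, ∀ v' ∈ W', 0 ≤ v' (e u) * v (e' v') := fun u hu v' hv' =>
    mul_nonneg ((h ▸ pos u hu) v' hv') ((h ▸ pos' v' hv' : e' v' ∈ dual W) v hv)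
  have a1 := expand h.ge e' he1' he2' hv (e v)
  rw [he1 v hv] at a1
  obtain ⟨v', hv', hne⟩ : ∃ v' ∈ W', v' (e v) * v (e' v') ≠ 0 :=
    Finset.exists_ne_zero_of_sum_ne_zero (by rw [← a1]; norm_num)
  have b1 : v' (e v) * v (e' v') ≤ 1 := by
    rw [a1]; exact Finset.single_le_sum (nn v hv) hv'
  have b2 : 0 ≤ v' (e v) := (h ▸ pos v hv) v' hv'
  have b3 : 0 ≤ v (e' v') := (h ▸ pos' v' hv' : e' v' ∈ dual W) v hv
  have b4 : v' (e v) ≠ 0 := left_ne_zero_of_mul hne
  have b5 : v (e' v') ≠ 0 := right_ne_zero_of_mul hne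
  have b6 : v' (e v) = 1 := by
    by_contra h6
    have : 2 ≤ v' (e v) := by omega
    have : 1 ≤ v (e' v') := by omega
    nlinarith
  have : v' = v := by
    ext s
    rw [expand h.le e he1 he2 hv' s, Finset.sum_eq_single v, b6, mul_one]
    · intro u hu huv
      have a2 := expand h.ge e' he1' he2' hv (e u)
      rw [he2 u hu v hv (Ne.symm huv)] at a2
      have := (Finset.sum_eq_zero_iff_of_nonneg (nn u hu)).1 a2.symm v' hv'
      rcases mul_eq_zero.1 this with h0 | h0
      · rw [h0, mul_zero]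
      · exact absurd h0 b5
    · intro h; exact absurd hv h
  exact this ▸ hv'

lemma exists_big (W : Finset (M →+ ℤ)) (s : M) : ∃ K : ℕ, ∀ v ∈ W, -(K : ℤ) ≤ v s := by
  refine ⟨∑ v ∈ W, (v s).natAbs, fun v hv => ?_⟩
  have := Finset.single_le_sum (f := fun v : M →+ ℤ => (v s).natAbs) (fun _ _ => Nat.zero_le _) hv
  omega

variable [DecidableEq (M →+ ℤ)] (a : ι → M) (V : ι → Finset (M →+ ℤ))

lemma sup_eq_filter
    (hS : ∀ i, AddSubmonoid.closure (Set.range fun j => a j - a i) = dual (V i)) (i j : ι) :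
    dual (V i) ⊔ dual (V j) = dual ((V i).filter (fun v => v (a j - a i) = 0)) := by
  have mem : ∀ i j, a j - a i ∈ dual (V i) := fun i j =>
    hS i ▸ AddSubmonoid.subset_closure (Set.mem_range_self j)
  apply le_antisymm
  · apply sup_le
    · intro s hs v hv
      exact hs v (mem_filter.1 hv).1
    · rw [← hS j, AddSubmonoid.closure_le]
      rintro _ ⟨l, rfl⟩ v hv
      obtain ⟨h1, h2⟩ := mem_filter.1 hv
      have := mem i l v h1
      simp only [map_sub] at *
      omega
  · intro s hs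
    obtain ⟨K, hK⟩ := exists_big (V i) s
    refine AddSubmonoid.mem_sup.2 ⟨s + K • (a j - a i), ?_, K • (a i - a j),
      AddSubmonoid.nsmul_mem _ (mem j i) K, by simp only [smul_sub]; abel⟩
    intro v hv
    rw [map_add, map_nsmul, nsmul_eq_mul]
    by_cases h : v (a j - a i) = 0
    · rw [h, mul_zero, add_zero]; exact hs v (mem_filter.2 ⟨hv, h⟩)
    · have h1 := mem i j v hv
      have h2 := hK v hv
      have : 1 ≤ v (a j - a i) := by omega
      nlinarith

lemma filter_eq (hV : ∀ i, Du (V i))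
    (hS : ∀ i, AddSubmonoid.closure (Set.range fun j => a j - a i) = dual (V i)) (i j : ι) :
    (V i).filter (fun v => v (a j - a i) = 0) = V i ∩ V j := by
  have mem : ∀ i j, a j - a i ∈ dual (V i) := fun i j =>
    hS i ▸ AddSubmonoid.subset_closure (Set.mem_range_self j)
  have := dual_inj ((hV i).mono (filter_subset (fun v => v (a j - a i) = 0) _))
    ((hV j).mono (filter_subset (fun v => v (a i - a j) = 0) _))
    (by rw [← sup_eq_filter a V hS, ← sup_eq_filter a V hS, sup_comm])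
  ext v
  constructor
  · intro hv
    exact mem_inter.2 ⟨(mem_filter.1 hv).1, (mem_filter.1 (this hv)).1⟩
  · intro hv
    obtain ⟨h1, h2⟩ := mem_inter.1 hv
    refine mem_filter.2 ⟨h1, ?_⟩
    have h3 := mem i j v h1
    have h4 := mem j i v h2
    simp only [map_sub] at *
    omega

lemma sup2 (hV : ∀ i, Du (V i))
    (hS : ∀ i, AddSubmonoid.closure (Set.range fun j => a j - a i) = dual (V i)) (i j : ι) :
    dual (V i) ⊔ dual (V j) = dual (V i ∩ V j) := by
  rw [sup_eq_filter a V hS, filter_eq a V hV hS]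

lemma sup3 (hV : ∀ i, Du (V i))
    (hS : ∀ i, AddSubmonoid.closure (Set.range fun j => a j - a i) = dual (V i)) (i j l : ι) :
    dual (V i) ⊔ dual (V j) ⊔ dual (V l) = dual (V i ∩ V j ∩ V l) := by
  have mem : ∀ i j, a j - a i ∈ dual (V i) := fun i j =>
    hS i ▸ AddSubmonoid.subset_closure (Set.mem_range_self j)
  apply le_antisymm
  · refine sup_le (sup_le ?_ ?_) ?_ <;> intro s hs v hv <;> apply hs <;>
      simp only [mem_inter] at hv <;> tauto
  · intro s hs
    obtain ⟨K, hK⟩ := exists_big (V i) s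
    rw [sup2 a V hV hS]
    refine AddSubmonoid.mem_sup.2 ⟨s + K • (a l - a i), ?_, K • (a i - a l),
      AddSubmonoid.nsmul_mem _ (mem l i) K, by simp only [smul_sub]; abel⟩
    intro v hv
    rw [map_add, map_nsmul, nsmul_eq_mul]
    by_cases h : v (a l - a i) = 0
    · rw [h, mul_zero, add_zero]
      apply hs v
      have : v ∈ V i ∩ V l := by
        rw [← filter_eq a V hV hS]; exact mem_filter.2 ⟨(mem_inter.1 hv).1, h⟩
      exact mem_inter.2 ⟨hv, (mem_inter.1 this).2⟩
    · have h1 := mem i l v (mem_inter.1 hv).1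
      have h2 := hK v (mem_inter.1 hv).1
      have : 1 ≤ v (a l - a i) := by omega
      nlinarith

end Pool.Agent.Lib.MP_cd184e_ag
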