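import Mathlib
import Pool.Agent.Lib.MP_cd184e_ag.Alg

namespace Pool.Agent.Lib.MP_cd184e_ag

open Finset AddMonoidAlgebra

variable {k M : Type} [Field k] [AddCommGroup M]

/-- leading term relation -/
def Rel {P : Type} [CommRing P] (I : Ideal P) (n : ℕ) (a b : P) : Prop :=
  b ∈ I ^ n ∧ a - b ∈ I ^ (n + 1)

lemma Rel.mul {P : Type} [CommRing P] {I : Ideal P} {m n : ℕ} {a b c d : P}
    (h : Rel I m a b) (h' : Rel I n c d) : Rel I (m + n) (a * c) (b * d) := by
  have hc : c ∈ I ^ n := by
    have := Ideal.add_mem _ (Ideal.pow_le_pow_right (Nat.le_succ n) h'.2) h'.1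
    simpa using this
  refine ⟨by rw [pow_add]; exact Ideal.mul_mem_mul h.1 h'.1, ?_⟩
  have : a * c - b * d = (a - b) * c + b * (c - d) := by ring
  rw [this]
  apply Ideal.add_mem
  · have := Ideal.mul_mem_mul h.2 hc
    rwa [← pow_add, add_right_comm] at this
  · have := Ideal.mul_mem_mul h.1 h'.2
    rwa [← pow_add, ← add_assoc] at this

/-- units -/
def un (S : AddSubmonoid M) : AddSubgroup M where
  carrier := {s | s ∈ S ∧ -s ∈ S}
  add_mem' := by
    rintro a b ⟨h1, h2⟩ ⟨h3, h4⟩
    exact ⟨S.add_mem h1 h3, by rw [neg_add]; exact S.add_mem h2 h4⟩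
  zero_mem' := ⟨S.zero_mem, by rw [neg_zero]; exact S.zero_mem⟩
  neg_mem' := by
    rintro a ⟨h1, h2⟩
    exact ⟨h2, by rw [neg_neg]; exact h1⟩

structure MinGen (S : AddSubmonoid M) (G : Finset M) : Prop where
  sub : ∀ g ∈ G, g ∈ S
  gen : ∀ s ∈ S, ∃ u ∈ un S, ∃ l : Multiset M, (∀ x ∈ l, x ∈ G) ∧ s = u + l.sum
  min : ∀ g ∈ G, ∀ u ∈ un S, ∀ l : Multiset M, (∀ x ∈ l, x ∈ G ∧ x ≠ g) → g ≠ u + l.sum

lemma exists_minGen (G0 : Finset M) : ∃ G, MinGen (AddSubmonoid.closure (G0 : Set M)) G := by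
  classical
  set S := AddSubmonoid.closure (G0 : Set M) with hS
  have ex : ∃ n, ∃ G : Finset M, G.card = n ∧ (∀ g ∈ G, g ∈ S) ∧
      S ≤ (un S).toAddSubmonoid ⊔ AddSubmonoid.closure (G : Set M) :=
    ⟨_, G0, rfl, fun g hg => AddSubmonoid.subset_closure hg, le_sup_right⟩
  obtain ⟨G, hG, h1, h2⟩ := Nat.find_spec ex
  refine ⟨G, h1, fun s hs => ?_, fun g hg u hu l hl h => ?_⟩
  · obtain ⟨u, hu, t, ht, rfl⟩ := AddSubmonoid.mem_sup.1 (h2 hs)
    obtain ⟨l, hl, rfl⟩ := AddSubmonoid.exists_multiset_of_mem_closure ht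
    exact ⟨u, hu, l, hl, rfl⟩
  · have hlt : (G.erase g).card < Nat.find ex := by
      rw [← hG]; exact Finset.card_erase_lt_of_mem hg
    apply Nat.find_min ex hlt
    refine ⟨G.erase g, rfl, fun x hx => h1 x (mem_of_mem_erase hx), h2.trans ?_⟩
    apply sup_le le_sup_left
    rw [AddSubmonoid.closure_le]
    intro x hx
    by_cases hxg : x = g
    · rw [hxg]
      refine AddSubmonoid.mem_sup.2 ⟨u, hu, l.sum, ?_, h.symm⟩
      apply AddSubmonoid.multiset_sum_mem
      intro y hy
      exact AddSubmonoid.subset_closure (by simp [hl y hy])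
    · exact (le_sup_right : AddSubmonoid.closure _ ≤ _)
        (AddSubmonoid.subset_closure (by simpa [hxg] using hx))

namespace MinGen

variable {S : AddSubmonoid M} {G : Finset M} (hG : MinGen S G)
include hG

lemma not_un {g : M} (hg : g ∈ G) : g ∉ un S := fun h =>
  hG.min g hg g h 0 (by simp) (by simp)

lemma eq_of {g g' : M} (hg : g ∈ G) (hg' : g' ∈ G) (h : g - g' ∈ un S) : g = g' := by
  by_contra hne
  exact hG.min g hg _ h {g'} (by simp [hg', Ne.symm hne]) (by simp)

lemma sum_mem {l : Multiset M} (hl : ∀ x ∈ l, x ∈ G) : l.sum ∈ S :=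
  S.multiset_sum_mem l fun x hx => hG.sub x (hl x hx)

lemma irr {g s t : M} (hg : g ∈ G) (hs : s ∈ S) (ht : t ∈ S) (hs' : s ∉ un S) (ht' : t ∉ un S) :
    s + t - g ∉ un S := by
  classical
  intro h
  obtain ⟨u, hu, l, hl, rfl⟩ := hG.gen s hs
  obtain ⟨u', hu', l', hl', rfl⟩ := hG.gen t ht
  have n1 : l ≠ 0 := by rintro rfl; exact hs' (by simpa using hu)
  have n2 : l' ≠ 0 := by rintro rfl; exact ht' (by simpa using hu')
  have hL : ∀ x ∈ l + l', x ∈ G := by
    intro x hx
    rcases Multiset.mem_add.1 hx with h | h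
    · exact hl x h
    · exact hl' x h
  have hw : u + u' - (u + l.sum + (u' + l'.sum) - g) ∈ un S :=
    (un S).sub_mem ((un S).add_mem hu hu') h
  set w := u + u' - (u + l.sum + (u' + l'.sum) - g) with hwdef
  have e1 : g = w + (l + l').sum := by rw [hwdef, Multiset.sum_add]; abel
  by_cases hgL : g ∈ l + l'
  · obtain ⟨L, hL'⟩ := Multiset.exists_cons_of_mem hgL
    have c1 : 0 < l.card := Multiset.card_pos.2 n1
    have c2 : 0 < l'.card := Multiset.card_pos.2 n2
    have c3 : L ≠ 0 := by
      rintro rfl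
      have := congrArg Multiset.card hL'
      simp at this; omega
    obtain ⟨x, hx⟩ := Multiset.exists_mem_of_ne_zero c3
    obtain ⟨L', rfl⟩ := Multiset.exists_cons_of_mem hx
    have hxG : x ∈ G := hL x (by rw [hL']; simp)
    apply hG.not_un hxG
    refine ⟨hG.sub x hxG, ?_⟩
    have : -x = w + L'.sum := by
      rw [hL', Multiset.sum_cons, Multiset.sum_cons] at e1
      rw [neg_eq_iff_add_eq_zero]
      have e2 : x + (w + L'.sum) = w + (g + (x + L'.sum)) - g := by abel
      rw [e2, ← e1, sub_self]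
    rw [this]
    exact S.add_mem hw.1 (hG.sum_mem fun y hy => hL y (by rw [hL']; simp [hy]))
  · exact hG.min g hg w hw (l + l') (fun x hx => ⟨hL x hx, by rintro rfl; exact hgL hx⟩) e1

end MinGen

open Classical in
/-- first order part -/
noncomputable def th (k : Type) [Field k] (S : AddSubmonoid M) (G : Finset M) (s : M) :
    MvPolynomial M k :=
  (if s ∈ un S then 1 else 0) + ∑ g ∈ G, if s - g ∈ un S then MvPolynomial.X g else 0

section
variable {S : AddSubmonoid M} {G : Finset M} (hG : MinGen S G)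
include hG

lemma th_un {s : M} (hs : s ∈ un S) : th k S G s = 1 := by
  classical
  rw [th, if_pos hs, Finset.sum_eq_zero, add_zero]
  intro g hg
  rw [if_neg]
  intro h
  apply hG.not_un hg
  have := (un S).sub_mem hs h
  simpa using this

omit hG in
lemma th_add_un {s : M} (hs : s ∈ un S) (t : M) : th k S G (s + t) = th k S G t := by
  have h1 : ∀ g, s + t - g ∈ un S ↔ t - g ∈ un S := fun g => by
    rw [add_sub_assoc]; exact (un S).add_mem_cancel_left hs
  have h2 : s + t ∈ un S ↔ t ∈ un S := (un S).add_mem_cancel_left hs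
  classical
  unfold th
  congr 1
  · exact if_congr h2 rfl rfl
  · exact Finset.sum_congr rfl fun g _ => if_congr (h1 g) rfl rfl

lemma th_gen {g : M} (hg : g ∈ G) : th k S G g = MvPolynomial.X g := by
  classical
  rw [th, if_neg (hG.not_un hg), zero_add, Finset.sum_eq_single g]
  · simp [(un S).zero_mem]
  · intro g' hg' hne
    rw [if_neg]
    intro h
    exact hne (hG.eq_of hg hg' h).symm
  · intro h; exact absurd hg h

omit hG in
lemma th_mem {s : M} (hs : s ∉ un S) : th k S G s ∈ MvPolynomial.idealOfVars M k := by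
  classical
  rw [th, if_neg hs, zero_add]
  apply Ideal.sum_mem
  intro g _
  split_ifs
  · exact Ideal.subset_span ⟨g, rfl⟩
  · exact Ideal.zero_mem _

lemma th_mul {s t : M} (hs : s ∈ S) (ht : t ∈ S) :
    th k S G (s + t) - th k S G s * th k S G t ∈ MvPolynomial.idealOfVars M k ^ 2 := by
  classical
  by_cases h1 : s ∈ un S
  · rw [th_add_un h1, th_un hG h1]; simp
  by_cases h2 : t ∈ un S
  · rw [add_comm, th_add_un h2, th_un hG h2]; simp
  have : th k S G (s + t) = 0 := by
    rw [th, if_neg, Finset.sum_eq_zero, add_zero]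
    · intro g hg
      exact if_neg (hG.irr hg hs ht h1 h2)
    · intro h
      apply h1
      refine ⟨hs, ?_⟩
      have := S.add_mem h.2 ht
      simpa using this
  rw [this, zero_sub, pow_two]
  exact neg_mem (Ideal.mul_mem_mul (th_mem h1) (th_mem h2))

lemma exists_first : ∃ f : sub k S →ₐ[k] MvPolynomial M k ⧸ MvPolynomial.idealOfVars M k ^ 2,
    ∀ s (hs : s ∈ S), f ⟨single s 1, single_mem_sub hs 1⟩ = Ideal.Quotient.mk _ (th k S G s) := by
  set Θ : AddMonoidAlgebra k M →ₗ[k] MvPolynomial M k ⧸ MvPolynomial.idealOfVars M k ^ 2 :=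
    (AddMonoidAlgebra.basis M k).constr k (fun s => Ideal.Quotient.mk _ (th k S G s)) with hΘ
  have h1 : ∀ s c, Θ (single s c) = c • Ideal.Quotient.mk _ (th k S G s) := by
    intro s c
    have : (single s c : AddMonoidAlgebra k M) = c • AddMonoidAlgebra.basis M k s := by simp
    rw [this, map_smul, hΘ, Module.Basis.constr_basis]
  refine ⟨AlgHom.ofLinearMap (Θ.comp (sub k S).val.toLinearMap) ?_ ?_, ?_⟩
  · show Θ (single 0 1) = 1
    rw [h1, th_un hG (un S).zero_mem]; simp
  · rintro ⟨x, hx⟩ ⟨y, hy⟩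
    show Θ (x * y) = Θ x * Θ y
    refine supp_ind (S := S) (p := fun x => Θ (x * y) = Θ x * Θ y) hx (by simp) ?_ ?_
    · intro a b ha hb
      rw [add_mul, map_add, map_add, ha, hb, add_mul]
    · intro s hs c
      refine supp_ind (S := S) (p := fun y => Θ (single s c * y) = Θ (single s c) * Θ y) hy
        (by simp) ?_ ?_
      · intro a b ha hb
        rw [mul_add, map_add, map_add, ha, hb, mul_add]
      · intro t ht d
        rw [single_mul_single, h1, h1, h1, smul_mul_smul_comm, ← map_mul,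
          Ideal.Quotient.eq.2 (th_mul hG hs ht)]
  · intro s hs
    show Θ (single s 1) = _
    rw [h1, one_smul]

lemma indep [Algebra.FormallySmooth k (sub k S)] {u u' : M} (hu : u ∈ un S) (hu' : u' ∈ un S)
    {l l' : Multiset M} (hl : ∀ x ∈ l, x ∈ G) (hl' : ∀ x ∈ l', x ∈ G)
    (h : u + l.sum = u' + l'.sum) (hc : l.card ≤ l'.card) : l = l' := by
  classical
  set I := MvPolynomial.idealOfVars M k with hI
  obtain ⟨f, hf⟩ := exists_first (k := k) hG
  have hle : I ^ (l.card + 2) ≤ I ^ 2 := Ideal.pow_le_pow_right (by omega)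
  have hsurj : Function.Surjective (Ideal.Quotient.factorₐ k hle) := by
    intro x
    obtain ⟨y, rfl⟩ := Ideal.Quotient.mk_surjective x
    exact ⟨Ideal.Quotient.mk _ y, rfl⟩
  have hnil : IsNilpotent (RingHom.ker (Ideal.Quotient.factorₐ k hle)) := by
    refine ⟨l.card + 2, ?_⟩
    have : RingHom.ker (Ideal.Quotient.factorₐ k hle) ≤
        I.map (Ideal.Quotient.mk (I ^ (l.card + 2))) := by
      intro x hx
      obtain ⟨y, rfl⟩ := Ideal.Quotient.mk_surjective x
      apply Ideal.mem_map_of_mem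
      have : y ∈ I ^ 2 := Ideal.Quotient.eq_zero_iff_mem.1 hx
      exact Ideal.pow_le_self (by norm_num) this
    rw [Ideal.zero_eq_bot, eq_bot_iff]
    refine (Ideal.pow_right_mono this _).trans ?_
    rw [← Ideal.map_pow, Ideal.map_quotient_self]
  set F := Algebra.FormallySmooth.liftOfSurjective f _ hsurj hnil with hFdef
  have hF : ∀ x, Ideal.Quotient.factorₐ k hle (F x) = f x :=
    Algebra.FormallySmooth.liftOfSurjective_apply f _ hsurj hnil
  have base : ∀ s (hs : s ∈ S), ∃ Y, Ideal.Quotient.mk _ Y = F ⟨single s 1, single_mem_sub hs 1⟩ ∧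
      Y - th k S G s ∈ I ^ 2 := by
    intro s hs
    obtain ⟨Y, hY⟩ := Ideal.Quotient.mk_surjective (F ⟨single s 1, single_mem_sub hs 1⟩)
    refine ⟨Y, hY, Ideal.Quotient.eq.1 ?_⟩
    rw [← hf s hs, ← hF, ← hY]; rfl
  have key : ∀ u ∈ un S, ∀ l : Multiset M, (∀ x ∈ l, x ∈ G) → ∀ hs : u + l.sum ∈ S,
      ∃ Y, Ideal.Quotient.mk _ Y = F ⟨single (u + l.sum) 1, single_mem_sub hs 1⟩ ∧
        Rel I l.card Y (MvPolynomial.monomial (Multiset.toFinsupp l) 1) := by
    intro u hu l
    induction l using Multiset.induction_on with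
    | empty =>
      intro _ hs
      obtain ⟨Y, h1, h2⟩ := base _ hs
      refine ⟨Y, h1, by simp, ?_⟩
      rw [th_un hG (by simpa using hu)] at h2
      simpa using Ideal.pow_le_pow_right (by norm_num : 1 ≤ 2) h2
    | cons g l ih =>
      intro hl hs
      have hg : g ∈ G := hl g (by simp)
      have hl0 : ∀ x ∈ l, x ∈ G := fun x hx => hl x (by simp [hx])
      have hs0 : u + l.sum ∈ S := S.add_mem hu.1 (hG.sum_mem hl0)
      obtain ⟨Y, h1, h2⟩ := ih hl0 hs0
      obtain ⟨Z, h3, h4⟩ := base g (hG.sub g hg)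
      rw [th_gen hG hg] at h4
      have h5 : Rel I 1 Z (MvPolynomial.X g) :=
        ⟨by rw [pow_one]; exact Ideal.subset_span ⟨g, rfl⟩, h4⟩
      refine ⟨Y * Z, ?_, ?_⟩
      · rw [map_mul, h1, h3, ← map_mul]
        congr 1
        apply Subtype.ext
        simp [single_mul_single, add_assoc, add_comm g]
      · have := h2.mul h5
        rw [Multiset.card_cons]
        convert this using 1
        rw [MvPolynomial.X, MvPolynomial.monomial_mul, mul_one, ← Multiset.singleton_add,
          map_add, add_comm, Multiset.toFinsupp_singleton]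
  have hs : u + l.sum ∈ S := S.add_mem hu.1 (hG.sum_mem hl)
  obtain ⟨Y, a1, a2⟩ := key u hu l hl hs
  obtain ⟨Y', b1, b2⟩ := key u' hu' l' hl' (h ▸ hs)
  have e : Y - Y' ∈ I ^ (l.card + 1) := by
    apply Ideal.pow_le_pow_right (Nat.le_succ _)
    apply Ideal.Quotient.eq.1
    rw [a1, b1]
    simp only [h]
  have e' : (MvPolynomial.monomial (Multiset.toFinsupp l) (1 : k)) -
      MvPolynomial.monomial (Multiset.toFinsupp l') 1 ∈ I ^ (l.card + 1) := by
    have := Ideal.add_mem _ (Ideal.sub_mem _ e a2.2)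
      (Ideal.pow_le_pow_right (Nat.succ_le_succ hc) b2.2)
    convert this using 1; ring
  rw [hI, MvPolynomial.mem_pow_idealOfVars_iff'] at e'
  have := e' (Multiset.toFinsupp l) (by
    have : Finsupp.degree (Multiset.toFinsupp l) = l.card := by
      exact Multiset.toFinsupp_sum_eq l
    omega)
  by_contra hne
  have hne' : Multiset.toFinsupp l' ≠ Multiset.toFinsupp l := fun h =>
    hne (Multiset.toFinsupp.injective h).symm
  simp [MvPolynomial.coeff_monomial, hne'] at this

lemma indep' [Algebra.FormallySmooth k (sub k S)] {u u' : M} (hu : u ∈ un S) (hu' : u' ∈ un S)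
    {l l' : Multiset M} (hl : ∀ x ∈ l, x ∈ G) (hl' : ∀ x ∈ l', x ∈ G)
    (h : u + l.sum = u' + l'.sum) : l = l' := by
  rcases le_total l.card l'.card with hc | hc
  · exact indep (k := k) hG hu hu' hl hl' h hc
  · exact (indep (k := k) hG hu' hu hl' hl h.symm hc).symm

lemma exists_rays [Algebra.FormallySmooth k (sub k S)]
    (hM : ∀ m : M, ∃ s ∈ S, ∃ t ∈ S, m = s - t) :
    ∃ W : Finset (M →+ ℤ), Du W ∧ S = dual W := by
  classical
  have hM' : ∀ m : M, ∃ u ∈ un S, ∃ l l' : Multiset M, (∀ x ∈ l, x ∈ G) ∧ (∀ x ∈ l', x ∈ G) ∧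
      m = u + l.sum - l'.sum := by
    intro m
    obtain ⟨s, hs, t, ht, rfl⟩ := hM m
    obtain ⟨u, hu, l, hl, rfl⟩ := hG.gen s hs
    obtain ⟨u', hu', l', hl', rfl⟩ := hG.gen t ht
    exact ⟨u - u', (un S).sub_mem hu hu', l, l', hl, hl', by abel⟩
  choose U hU L L' hL hL' hm using hM'
  have happ : ∀ {l l' : Multiset M}, (∀ x ∈ l, x ∈ G) → (∀ x ∈ l', x ∈ G) →
      ∀ x ∈ l + l', x ∈ G := by
    intro l l' hl hl' x hx
    rcases Multiset.mem_add.1 hx with h | h
    · exact hl x h
    · exact hl' x h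
  have wd : ∀ (g m u : M), u ∈ un S → ∀ l l' : Multiset M, (∀ x ∈ l, x ∈ G) → (∀ x ∈ l', x ∈ G) →
      m = u + l.sum - l'.sum →
      ((L m).count g : ℤ) - (L' m).count g = (l.count g : ℤ) - l'.count g := by
    intro g m u hu l l' hl hl' h
    have := indep' (k := k) hG (hU m) hu (happ (hL m) hl') (happ hl (hL' m)) (by
      rw [Multiset.sum_add, Multiset.sum_add, ← sub_eq_zero]
      have h2 := hm m
      have : U m + ((L m).sum + l'.sum) - (u + (l.sum + (L' m).sum)) =
        (U m + (L m).sum - (L' m).sum) - (u + l.sum - l'.sum) := by abel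
      rw [this, ← h2, ← h, sub_self])
    have := congrArg (Multiset.count g) this
    rw [Multiset.count_add, Multiset.count_add] at this
    omega
  set v : M → (M →+ ℤ) := fun g => AddMonoidHom.mk'
    (fun m => ((L m).count g : ℤ) - (L' m).count g) (by
      intro a b
      rw [wd g (a + b) (U a + U b) ((un S).add_mem (hU a) (hU b)) (L a + L b) (L' a + L' b)
        (happ (hL a) (hL b)) (happ (hL' a) (hL' b)) (by
          rw [Multiset.sum_add, Multiset.sum_add]
          conv_lhs => rw [hm a, hm b]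
          abel)]
      simp only [Multiset.count_add]
      push_cast; ring) with hv
  have vapp : ∀ g m, v g m = ((L m).count g : ℤ) - (L' m).count g := fun _ _ => rfl
  refine ⟨G.image v, ?_, ?_⟩
  · intro w hw
    obtain ⟨g, hg, rfl⟩ := mem_image.1 hw
    have key : ∀ g', v g' g = if g' = g then 1 else 0 := by
      intro g'
      rw [vapp, wd g' g 0 (un S).zero_mem {g} 0 (by simpa using hg) (by simp) (by simp)]
      simp [Multiset.count_singleton]
    refine ⟨g, by simp [key], ?_⟩
    intro w' hw' hne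
    obtain ⟨g', _, rfl⟩ := mem_image.1 hw'
    rw [key, if_neg]
    rintro rfl; exact hne rfl
  · ext s
    constructor
    · intro hs w hw
      obtain ⟨g, hg, rfl⟩ := mem_image.1 hw
      obtain ⟨u, hu, l, hl, h⟩ := hG.gen s hs
      rw [vapp, wd g s u hu l 0 hl (by simp) (by simpa using h)]
      simp
    · intro hs
      have hle : L' s ≤ L s := by
        rw [Multiset.le_iff_count]
        intro g
        by_cases hg : g ∈ G
        · have := hs (v g) (mem_image_of_mem v hg)
          rw [vapp] at this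
          omega
        · rw [Multiset.count_eq_zero.2 (fun h => hg (hL' s g h))]
          exact Nat.zero_le _
      obtain ⟨l, hl⟩ := Multiset.le_iff_exists_add.1 hle
      have : s = U s + l.sum := by
        have h2 := hm s
        rw [hl, Multiset.sum_add] at h2
        exact h2.trans (by abel)
      rw [this]
      exact S.add_mem (hU s).1 (hG.sum_mem fun x hx => hL s x (by rw [hl]; simp [hx]))

end

end Pool.Agent.Lib.MP_cd184e_ag
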