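import Mathlib
import Pool.Agent.Lib.MP_cd184e_ag.Smooth
import Pool.Agent.Lib.MP_cd184e_ag.Rays

namespace Pool.Agent.Lib.MP_cd184e_ag

theorem main {k M ι : Type} [Field k] [AddCommGroup M] [Fintype ι] (p e : ℕ) [Fact p.Prime]
    [CharP k p] (he : 1 ≤ e) (a : ι → M)
    (hgen : AddSubgroup.closure {m | ∃ i j, m = a j - a i} = ⊤)
    (hsm : ∀ i, Algebra.Smooth k (chart k a i))
    (h1 : H1 (fend (p ^ e)) (chart k a)) (h2 : H2 (fend (p ^ e)) (chart k a)) :
    H1 tang (chart k a) := by
  classical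
  have hV : ∀ i, ∃ W : Finset (M →+ ℤ), Du W ∧
      AddSubmonoid.closure (Set.range fun j => a j - a i) = dual W := by
    intro i
    obtain ⟨G, hG⟩ := exists_minGen (Finset.univ.image fun j => a j - a i)
    have e1 : ((Finset.univ.image fun j => a j - a i : Finset M) : Set M) =
        Set.range fun j => a j - a i := by simp
    rw [e1] at hG
    have : Algebra.FormallySmooth k (sub k (AddSubmonoid.closure (Set.range fun j => a j - a i))) :=
      chart_eq (k := k) a i ▸ (hsm i).formallySmooth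
    apply exists_rays (k := k) hG
    intro m
    have hm : m ∈ AddSubgroup.closure {m | ∃ i j, m = a j - a i} := by rw [hgen]; trivial
    induction hm using AddSubgroup.closure_induction with
    | mem x hx =>
      obtain ⟨l, j, rfl⟩ := hx
      exact ⟨a j - a i, AddSubmonoid.subset_closure ⟨j, rfl⟩, a l - a i,
        AddSubmonoid.subset_closure ⟨l, rfl⟩, by abel⟩
    | zero => exact ⟨0, zero_mem _, 0, zero_mem _, by simp⟩
    | add x y _ _ hx hy =>
      obtain ⟨s, hs, t, ht, rfl⟩ := hx
      obtain ⟨s', hs', t', ht', rfl⟩ := hy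
      exact ⟨s + s', add_mem hs hs', t + t', add_mem ht ht', by abel⟩
    | neg x _ hx =>
      obtain ⟨s, hs, t, ht, rfl⟩ := hx
      exact ⟨t, ht, s, hs, by abel⟩
  choose V hV hS using hV
  have c1 : ∀ i, chart k a i = sub k (dual (V i)) := fun i => by rw [chart_eq, hS]
  refine main_of_rays p e he (g := {m | ∃ i j, m = a j - a i}) ?_ hgen _ V hV c1 ?_ ?_ h1 h2
  · refine (Set.finite_range fun x : ι × ι => a x.2 - a x.1).subset ?_
    rintro _ ⟨i, j, rfl⟩
    exact ⟨(i, j), rfl⟩
  · intro i j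
    rw [c1, c1, sub_sup, sup2 a V hV hS]
  · intro i j l
    rw [c1, c1, c1, sub_sup, sub_sup, sup3 a V hV hS]

end Pool.Agent.Lib.MP_cd184e_ag
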